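import Pool.Agent.helper95.DP.ST
import Pool.Agent.helper64.TP.SpecF
import Pool.Agent.helper64.TP.Basic
import Pool.Agent.helper64.TP.SUB
namespace TP

open DP

open MeasureTheory

theorem ST (hPSU : PSU_stmt) (hstab : Bstab_stmt) (hcongr : Bcongr_stmt) (hmono : Bmono_stmt)
    (hEXR : EXR_stmt) : ST_stmt := by
  obtain ⟨k₀, hk⟩ := hPSU
  obtain ⟨C, hC, i₁, hE⟩ := hEXR
  refine ⟨max k₀ i₁, fun k hkk => ?_⟩
  obtain ⟨K, hK, hsum⟩ := hk k ((le_max_left _ _).trans hkk)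
  refine ⟨1 / (2 * C ^ 4), 1 / K, by positivity, by positivity, fun i s hi hs0 hs1 hs => ?_⟩
  set F : Set (V → Bool) := Ev fun c => four c 0 (2 ^ k) (2 ^ i) with hF
  set G : Set (V → Bool) := Ev fun c => four c 0 (2 ^ (k + 1)) (2 ^ (i - 3)) with hG
  have eF : F = Ev fun c => ar 4 c 0 (2 ^ k) (2 ^ i) := by
    rw [hF]; simp only [ar, if_true]
  have eG : G = Ev fun c => ar 4 c 0 (2 ^ (k + 1)) (2 ^ (i - 3)) := by
    rw [hG]; simp only [ar, if_true]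
  have locF : Loc F (ann 0 (2 ^ k) (2 ^ i)) := by rw [eF]; exact SUB_loc _ _ _ _
  have locG : Loc G (ann 0 (2 ^ (k + 1)) (2 ^ (i - 3))) := by rw [eG]; exact SUB_loc _ _ _ _
  have hFG : F ⊆ G := by
    rw [eF, eG]
    intro b hb
    have e0 : (2 : ℕ) ^ k ≤ 2 ^ (k + 1) := Nat.pow_le_pow_right (by norm_num) (by omega)
    have e1 : (2 : ℕ) ^ (k + 1) ≤ 2 ^ (i - 3) := Nat.pow_le_pow_right (by norm_num) (by omega)
    have e2 : (2 : ℕ) ^ (i - 3) ≤ 2 ^ i := Nat.pow_le_pow_right (by norm_num) (by omega)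
    exact SUB_ar (c := col b) (j := 4) (x := 0) e0 e1 e2 hb
  set L := annN (2 ^ k) (2 ^ (i - 2)) with hL
  have h1 := hstab L F _ (fun v => if v ∈ L then s else 0) s locF hs0 hs1
    (fun v hv => by simp [hv]) (fun v hv => by simp [hv])
  have h2 := hsum i hi
  have h3 : Q (fun v => if v ∈ L then s else 0) F F ≤ Q (fun v => if v ∈ L then s else 0) G G :=
    hmono _ _ _ _ _ hFG hFG
  have h4 : Q (fun v => if v ∈ L then s else 0) G G = Q (fun _ => s) G G := by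
    refine hcongr _ _ G G _ locG locG fun v hv => ?_
    have hbr : br v ∈ L := by
      rw [hL, ST_mem]
      have hv' : 2 ^ (k + 1) ≤ sd 0 v ∧ sd 0 v ≤ 2 ^ (i - 3) := hv
      have t1 := sd_triangle 0 v (br v)
      have t2 := sd_triangle 0 (br v) v
      have t3 := sd_br_le v
      have t4 : sd (br v) v ≤ 1 := by rw [sd_comm]; exact t3
      have t5 : 1 ≤ 2 ^ k := Nat.one_le_two_pow
      have t6 : 2 ^ (k + 1) = 2 * 2 ^ k := by ring
      have t7 : 1 ≤ 2 ^ (i - 3) := Nat.one_le_two_pow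
      have t8 : 2 ^ (i - 2) = 2 * 2 ^ (i - 3) := by
        rw [show i - 2 = (i - 3) + 1 by omega]; ring
      show 2 ^ k ≤ sd 0 (br v) ∧ sd 0 (br v) ≤ 2 ^ (i - 2)
      omega
    rw [if_pos hbr]
  have h5 := (hE 4 (fun _ => s) 0 k (i - 3) 3 (Or.inr rfl) (fun _ => ⟨hs0, hs1⟩) (by simp)
    ((le_max_right _ _).trans hkk) (by omega)).1
  have e2 : i - 3 + 3 = i := by omega
  rw [e2] at h5
  have h5' := (hE 4 (fun _ => s) 0 k (i - 4) 1 (Or.inr rfl) (fun _ => ⟨hs0, hs1⟩) (by simp)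
    ((le_max_right _ _).trans hkk) (by omega)).2.1
  have e3 : i - 4 + 1 = i - 3 := by omega
  rw [e3] at h5'
  have h6 : Q (fun _ => s) G G ≤ C ^ 4 * qa (fun _ => s) 4 0 (2 ^ k) (2 ^ i) := by
    rw [eG]
    have hC0 : 0 ≤ C := by linarith
    calc Q (fun _ => s) (Ev fun c => ar 4 c 0 (2 ^ (k + 1)) (2 ^ (i - 3)))
          (Ev fun c => ar 4 c 0 (2 ^ (k + 1)) (2 ^ (i - 3)))
        ≤ C ^ 1 * qa (fun _ => s) 4 0 (2 ^ k) (2 ^ (i - 3)) := h5'
      _ ≤ C ^ 1 * (C ^ 3 * qa (fun _ => s) 4 0 (2 ^ k) (2 ^ i)) :=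
        mul_le_mul_of_nonneg_left h5 (by positivity)
      _ = C ^ 4 * qa (fun _ => s) 4 0 (2 ^ k) (2 ^ i) := by ring
  have h7 : Pr F = al k i := rfl
  have h8 : 0 ≤ al k i := by rw [← h7]; exact measureReal_nonneg
  rw [h7] at h1
  have h9 : s / 2 * ∑ v ∈ L, Pr (Piv {v} F) ≤ al k i / 2 := by
    have e3 : s / 2 * ∑ v ∈ L, Pr (Piv {v} F) ≤ s / 2 * (K * 4 ^ i * al k i ^ 2) :=
      mul_le_mul_of_nonneg_left h2 (by linarith)
    have e4 : s / 2 * (K * 4 ^ i * al k i ^ 2) = (s * (4 ^ i * al k i)) * (K * al k i / 2) := by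
      ring
    have e5 : (s * (4 ^ i * al k i)) * (K * al k i / 2) ≤ 1 / K * (K * al k i / 2) :=
      mul_le_mul_of_nonneg_right hs (by positivity)
    have e6 : 1 / K * (K * al k i / 2) = al k i / 2 := by field_simp
    linarith
  have hC2 : 0 < C ^ 4 := by positivity
  have h10 : al k i / 2 ≤ C ^ 4 * qa (fun _ => s) 4 0 (2 ^ k) (2 ^ i) := by linarith
  rw [div_mul_eq_mul_div, one_mul, div_le_iff₀ (by positivity)]
  linarith

end TP
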